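import Pool.Agent.J6H38.CM.E

/-!
# A paracompact p-space `X` for which `N(X)` is not invariant under closed mappings (Q1)

`K` is the set of ordinals below `𝔠⁺` with the discrete topology, `M = K ^ ω`, and `X` is the
Alexandroff duplicate of `M`. Let `S` be the set of the `α` in `K` of uncountable cofinality above
some `l0` with `|l0| = 𝔠`, `Λ = S ^ ω` and `T = Λ × ω`; put `s (c, k) = c k`, and let `H` be the
set of all regressive functions on `T` (that is `h t < s t`). The space `Y` has the set `T` as the
set of its non-isolated points. The isolated points of `Y` are the pairs of labelled points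
`((c, k), R)`, `((c', k), R')` with `R`, `R'` finite subsets of `H`, `c k ≠ c' k` and
`h (c, k) = h (c', k)` for all `h` in `R ∩ R'`; it is in the basic neighbourhood of `t` given by
`R₀` if `t` is one of its two points and the label of `t` contains `R₀`. The space `Z` is the
quotient of `Y` in which the points `(c, k)`, `k ∈ ω`, are identified to one point `c`.

* `X × Y` is normal: for every `t = (c, k)` and `m` in `M` there is a cylinder around `m` and
  a description of the situation in it which is determined by fewer than `c k` coordinates; by
  regressive functions such descriptions can be made equal for points with a common isolated point.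
* `X × Z` is not normal: `{((c, true), c) : c ∈ Λ}` and `{((c, false), c) : c ∈ Λ}` are closed
  and cannot be separated: otherwise every `c` in `Λ` gets an `n c` such that the cylinder
  of length `n c` around `c` is good; there is a node `b` of length `n` such that for every `α` in
  `S` there is a `c` in `Λ` through `b` with `n c = n` and `c n = α`, and a pressing-down argument
  gives two such `c` with a common isolated point in the neighbourhoods of `(c, n)`.
-/

set_option autoImplicit false

namespace Pool.Agent.Results.MP_8829b8_gt.ParacompactPSpace

open Set Topology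

/-- There are a Tychonoff paracompact p-space `X` (it has a perfect map onto a metrizable space),
a Tychonoff space `Y` with `X × Y` normal and a closed continuous map `f` of `Y` onto a Tychonoff
space `Z` such that `X × Z` is not normal. -/
theorem result :
    ∃ (X Y Z M : Type) (_ : TopologicalSpace X) (_ : TopologicalSpace Y)
      (_ : TopologicalSpace Z) (_ : TopologicalSpace M),
      T35Space X ∧ T35Space Y ∧ T35Space Z ∧
      (ParacompactSpace X ∧ TopologicalSpace.MetrizableSpace M ∧
        ∃ g : X → M, Continuous g ∧ IsClosedMap g ∧ Function.Surjective g ∧
          ∀ m, IsCompact (g ⁻¹' {m})) ∧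
      NormalSpace (X × Y) ∧
      (∃ f : Y → Z, Continuous f ∧ IsClosedMap f ∧ Function.Surjective f) ∧
      ¬ NormalSpace (X × Z) := by
  refine ⟨J6H38.CM.X, J6H38.CM.Y, J6H38.CM.Z, J6H38.CM.M, inferInstance, inferInstance,
    inferInstance, inferInstance, J6H38.CM.X_t35, J6H38.CM.Y_t35, J6H38.CM.Z_t35,
    ⟨J6H38.CM.X_paracompact, J6H38.CM.M_metrizable, J6H38.CM.g, J6H38.CM.g_cont,
      J6H38.CM.g_closed, J6H38.CM.g_surj, J6H38.CM.g_fibre⟩, J6H38.CM.XY_normal,
    ⟨Helper70.RS.qm J6H38.CM.nY J6H38.CM.nZ, ?_, ?_, ?_⟩, J6H38.CM.XZ_not_normal⟩
  · exact Helper70.RS.qm_cont fun f S => Iff.rfl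
  · exact Helper70.RS.qm_closed fun f S => Iff.rfl
  · exact Helper70.RS.qm_surj

end Pool.Agent.Results.MP_8829b8_gt.ParacompactPSpace
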